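import Mathlib

/-!
# MP_30ddb3_co, Q2: `M_{m_{(2,1^{d-2})}}` and `M_{e_{d-1,1}}` are not isomorphic for even `d`

For every even `d ≥ 4`, every `n ≥ d` and every `ℓ ≥ 1` there is no injective
`𝔖_n`-equivariant linear map from the polarization module of `m_{(2,1^{d-2})}`
to the polarization module of `e_{d-1} e_1`.  In particular the isomorphism of
`𝔖_n × GL_ℓ`-representations asked for in Q2 (`d ≥ 5`, `n ≥ d`) fails (for every even `d ≥ 6`).

The reason: with `d = 2k`, the operator `P = ∏_{i<k} (1 - (2i, 2i+1))` kills every element of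
`M_{e_{d-1,1}}`, but it does not kill `∂_0 ∂_2 ⋯ ∂_{2k-2} m_{(2,1^{d-2})}`.
-/

namespace Pool.Agent.Results.MP_30ddb3_co.PolarizationNotIso

open MvPolynomial Finset

/-- The polynomial ring `ℂ[X]`, `X = (x_{ij})`, `i ∈ Fin ℓ` (rows), `j ∈ Fin n` (columns). -/
abbrev P (ℓ n : ℕ) := MvPolynomial (Fin ℓ × Fin n) ℂ

variable {ℓ n : ℕ}

/-- The generalized polarization operator `E^{(p)}_{i,k} f = ∑_j x_{ij} ∂_{kj}^p f`. -/
noncomputable def E (p : ℕ) (i k : Fin ℓ) (f : P ℓ n) : P ℓ n :=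
  ∑ j : Fin n, X (i, j) * (pderiv (k, j))^[p] f

/-- The diagonal action of `𝔖_n`: `x_{ij} ↦ x_{i σ(j)}`. -/
noncomputable def sAct (σ : Equiv.Perm (Fin n)) : P ℓ n →ₐ[ℂ] P ℓ n :=
  rename (fun a => (a.1, σ a.2))

/-- The action of `GL_ℓ(ℂ)`: `x_{ij} ↦ ∑_k m_{ik} x_{kj}`. -/
noncomputable def glAct (M : Matrix.GeneralLinearGroup (Fin ℓ) ℂ) : P ℓ n →ₐ[ℂ] P ℓ n :=
  aeval (fun a => ∑ k : Fin ℓ, C ((M : Matrix (Fin ℓ) (Fin ℓ) ℂ) a.1 k) * X (k, a.2))

/-- `W` contains the `𝔖_n`-orbit of `f` and is closed under all partial derivatives and all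
generalized polarization operators `E^{(p)}_{i,k}`, `p ≥ 1`. -/
structure Closed (f : P ℓ n) (W : Submodule ℂ (P ℓ n)) : Prop where
  orbit : ∀ σ : Equiv.Perm (Fin n), sAct σ f ∈ W
  deriv : ∀ a : Fin ℓ × Fin n, ∀ g ∈ W, pderiv a g ∈ W
  polar : ∀ p : ℕ, 1 ≤ p → ∀ i k : Fin ℓ, ∀ g ∈ W, E p i k g ∈ W

/-- The polarization module `M_f`: the smallest such subspace. -/
noncomputable def polMod (f : P ℓ n) : Submodule ℂ (P ℓ n) := sInf {W | Closed f W}

/-- A symmetric function of `n` variables, written in the variables of the first row. -/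
noncomputable def row (ℓ : ℕ) [NeZero ℓ] (F : MvPolynomial (Fin n) ℂ) : P ℓ n :=
  rename (fun j => ((0 : Fin ℓ), j)) F

/-- The monomial symmetric polynomial `m_{(2,1^{d-2})}` in `n` variables: the sum of the
monomials `x_j^2 ∏_{b ∈ B} x_b` over all `j` and all `(d-2)`-element sets `B` with `j ∉ B`. -/
noncomputable def m21 (n d : ℕ) : MvPolynomial (Fin n) ℂ :=
  ∑ j : Fin n, ∑ B ∈ powersetCard (d - 2) (univ.erase j), X j ^ 2 * ∏ b ∈ B, X b

/-- `φ` intertwines the `𝔖_n`-actions. -/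
def SEquivariant {A B : Submodule ℂ (P ℓ n)} (φ : A →ₗ[ℂ] B) : Prop :=
  ∀ (σ : Equiv.Perm (Fin n)) (v w : A), (w : P ℓ n) = sAct σ v → (φ w : P ℓ n) = sAct σ (φ v)

/-- `φ` intertwines the `GL_ℓ(ℂ)`-actions. -/
def GLEquivariant {A B : Submodule ℂ (P ℓ n)} (φ : A →ₗ[ℂ] B) : Prop :=
  ∀ (M : Matrix.GeneralLinearGroup (Fin ℓ) ℂ) (v w : A),
    (w : P ℓ n) = glAct M v → (φ w : P ℓ n) = glAct M (φ v)

/-- `A ≅ B` as representations of `𝔖_n × GL_ℓ(ℂ)`. -/
def RepIso (A B : Submodule ℂ (P ℓ n)) : Prop :=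
  ∃ φ : A ≃ₗ[ℂ] B, SEquivariant (φ : A →ₗ[ℂ] B) ∧ GLEquivariant (φ : A →ₗ[ℂ] B)

/-! ### Basic facts -/

lemma polMod_closed (f : P ℓ n) : Closed f (polMod f) := by
  refine ⟨fun σ => ?_, fun a g hg => ?_, fun p hp i k g hg => ?_⟩
  · rw [polMod, Submodule.mem_sInf]
    intro W hW
    exact hW.orbit σ
  · rw [polMod, Submodule.mem_sInf] at hg ⊢
    intro W hW
    exact hW.deriv a g (hg W hW)
  · rw [polMod, Submodule.mem_sInf] at hg ⊢
    intro W hW
    exact hW.polar p hp i k g (hg W hW)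

lemma polMod_le {f : P ℓ n} {W : Submodule ℂ (P ℓ n)} (h : Closed f W) : polMod f ≤ W :=
  sInf_le h

lemma sAct_mul (σ τ : Equiv.Perm (Fin n)) (f : P ℓ n) :
    sAct σ (sAct τ f) = sAct (σ * τ) f := by
  simp only [sAct, rename_rename]
  rfl

lemma sAct_X (σ : Equiv.Perm (Fin n)) (i : Fin ℓ) (j : Fin n) :
    sAct σ (X (i, j) : P ℓ n) = X (i, σ j) := by
  simp [sAct]

lemma inj_perm (σ : Equiv.Perm (Fin n)) :
    Function.Injective (fun a : Fin ℓ × Fin n => (a.1, σ a.2)) := by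
  rintro ⟨a, b⟩ ⟨c, d⟩ h
  simp only [Prod.mk.injEq, EmbeddingLike.apply_eq_iff_eq] at h
  rw [h.1, h.2]

lemma sAct_pderiv (σ : Equiv.Perm (Fin n)) (i : Fin ℓ) (j : Fin n) (f : P ℓ n) :
    sAct σ (pderiv (i, j) f) = pderiv (i, σ j) (sAct σ f) :=
  (pderiv_rename (inj_perm σ) (i, j) f).symm

lemma sAct_iter (σ : Equiv.Perm (Fin n)) (i : Fin ℓ) (j : Fin n) (p : ℕ) (f : P ℓ n) :
    sAct σ ((pderiv (i, j))^[p] f) = (pderiv (i, σ j))^[p] (sAct σ f) := by
  induction p with
  | zero => rfl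
  | succ p ih => rw [Function.iterate_succ_apply', Function.iterate_succ_apply', sAct_pderiv, ih]

lemma sAct_E (σ : Equiv.Perm (Fin n)) (p : ℕ) (i k : Fin ℓ) (f : P ℓ n) :
    sAct σ (E p i k f) = E p i k (sAct σ f) := by
  unfold E
  rw [map_sum, ← Equiv.sum_comp σ (fun j => X (i, j) * (pderiv (k, j))^[p] (sAct σ f))]
  refine sum_congr rfl fun j _ => ?_
  rw [map_mul, sAct_X, sAct_iter]

lemma polMod_sAct (f : P ℓ n) (σ : Equiv.Perm (Fin n)) {v : P ℓ n} (hv : v ∈ polMod f) :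
    sAct σ v ∈ polMod f := by
  have hc := polMod_closed f
  have h : Closed f ((polMod f).comap (sAct σ : P ℓ n →ₐ[ℂ] P ℓ n).toLinearMap) := by
    refine ⟨fun τ => ?_, fun a g hg => ?_, fun p hp i k g hg => ?_⟩
    · simp only [Submodule.mem_comap, AlgHom.toLinearMap_apply]
      rw [sAct_mul]
      exact hc.orbit _
    · simp only [Submodule.mem_comap, AlgHom.toLinearMap_apply] at hg ⊢
      rcases a with ⟨i, j⟩
      rw [sAct_pderiv]
      exact hc.deriv _ _ hg
    · simp only [Submodule.mem_comap, AlgHom.toLinearMap_apply] at hg ⊢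
      rw [sAct_E]
      exact hc.polar p hp i k _ hg
  exact polMod_le h hv

/-! ### The invariant subspace containing `M_{e_{d-1,1}}` -/

/-- The linear form `∑_j x_{rj}`. -/
noncomputable def L (r : Fin ℓ) : P ℓ n := ∑ j : Fin n, X (r, j)

lemma sAct_L (σ : Equiv.Perm (Fin n)) (r : Fin ℓ) : sAct σ (L r : P ℓ n) = L r := by
  unfold L
  rw [map_sum, ← Equiv.sum_comp σ (fun j => (X (r, j) : P ℓ n))]
  exact sum_congr rfl fun j _ => sAct_X σ r j

lemma pderiv_L (a : Fin ℓ × Fin n) (r : Fin ℓ) :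
    pderiv a (L r : P ℓ n) = if a.1 = r then 1 else 0 := by
  unfold L
  rw [map_sum]
  rcases a with ⟨i, j⟩
  simp only [pderiv_X, Pi.single_apply, Prod.mk.injEq]
  by_cases h : i = r
  · subst h
    simp
  · simp [h, Ne.symm h]

/-- `q` is homogeneous of degree `m`, invariant under all permutations fixing `T` pointwise,
and `m + |T| ≤ D`. -/
def G1 (D : ℕ) (q : P ℓ n) : Prop :=
  ∃ (T : Finset (Fin n)) (m : ℕ), m + T.card ≤ D ∧ q.IsHomogeneous m ∧
    ∀ σ : Equiv.Perm (Fin n), (∀ j ∈ T, σ j = j) → sAct σ q = q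

lemma G1_zero (D : ℕ) : G1 D (0 : P ℓ n) :=
  ⟨∅, 0, by simp, isHomogeneous_zero _ _ _, fun σ _ => by simp⟩

lemma G1_sAct {D : ℕ} {q : P ℓ n} (h : G1 D q) (τ : Equiv.Perm (Fin n)) : G1 D (sAct τ q) := by
  obtain ⟨T, m, h1, h2, h3⟩ := h
  refine ⟨T.map τ.toEmbedding, m, by simpa using h1, h2.rename_isHomogeneous, fun σ hσ => ?_⟩
  have h4 := h3 (τ⁻¹ * σ * τ) (fun j hj => by
    have := hσ (τ j) (by simpa using hj)
    simp [Equiv.Perm.mul_apply, this])
  calc sAct σ (sAct τ q) = sAct τ (sAct (τ⁻¹ * σ * τ) q) := by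
        rw [sAct_mul, sAct_mul]; congr 1; group
    _ = sAct τ q := by rw [h4]

lemma hom_iter {q : P ℓ n} {m : ℕ} (h : q.IsHomogeneous m) (a : Fin ℓ × Fin n) (p : ℕ) :
    ((pderiv a)^[p] q).IsHomogeneous (m - p) := by
  induction p with
  | zero => simpa using h
  | succ p ih =>
    rw [Function.iterate_succ_apply']
    have := ih.pderiv (i := a)
    rwa [Nat.sub_sub] at this

lemma iter_zero_of_lt {q : P ℓ n} {m : ℕ} (h : q.IsHomogeneous m) (a : Fin ℓ × Fin n) {p : ℕ}
    (hp : m < p) : (pderiv a)^[p] q = 0 := by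
  obtain ⟨r, rfl⟩ : ∃ r, p = r + 1 + m := ⟨p - 1 - m, by omega⟩
  have h0 := hom_iter h a m
  rw [Nat.sub_self] at h0
  rw [Function.iterate_add_apply, Function.iterate_succ_apply]
  have h1 : pderiv a ((pderiv a)^[m] q) = 0 := by
    have hC := totalDegree_eq_zero_iff_eq_C.1 ((totalDegree_zero_iff_isHomogeneous _).2 h0)
    rw [hC, pderiv_C]
  rw [h1]
  clear h1 h0
  induction r with
  | zero => rfl
  | succ r ih => rw [Function.iterate_succ_apply', ih (by omega), map_zero]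


lemma G1_iter {D : ℕ} {q : P ℓ n} (h : G1 D q) (i : Fin ℓ) (j : Fin n) :
    G1 D (pderiv (i, j) q) := by
  classical
  obtain ⟨T, m, h1, h2, h3⟩ := h
  rcases Nat.eq_zero_or_pos m with rfl | hm
  · have := iter_zero_of_lt h2 (i, j) (p := 1) (by norm_num)
    rw [Function.iterate_one] at this
    rw [this]
    exact G1_zero D
  · refine ⟨insert j T, m - 1, ?_, h2.pderiv, fun σ hσ => ?_⟩
    · have := card_insert_le j T
      omega
    · rw [sAct_pderiv, h3 σ (fun a ha => hσ a (mem_insert_of_mem ha)),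
        hσ j (mem_insert_self j T)]

lemma G1_E {D : ℕ} {q : P ℓ n} (h : G1 D q) {p : ℕ} (hp : 1 ≤ p) (i k : Fin ℓ) :
    G1 D (E p i k q) := by
  obtain ⟨T, m, h1, h2, h3⟩ := h
  rcases Nat.lt_or_ge m p with hm | hm
  · have : E p i k q = 0 := by
      unfold E
      exact sum_eq_zero fun j _ => by rw [iter_zero_of_lt h2 _ hm, mul_zero]
    rw [this]
    exact G1_zero D
  · refine ⟨T, 1 + (m - p), by omega, ?_, fun σ hσ => ?_⟩
    · unfold E
      exact IsHomogeneous.sum _ _ _ fun j _ => (isHomogeneous_X ℂ _).mul (hom_iter h2 _ p)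
    · rw [sAct_E, h3 σ hσ]

/-- The span of all `q` and `L_r q` with `G1 D q`. -/
noncomputable def W (ℓ n D : ℕ) : Submodule ℂ (P ℓ n) :=
  Submodule.span ℂ ({q | G1 D q} ∪ {h | ∃ (r : Fin ℓ) (q : P ℓ n), G1 D q ∧ h = L r * q})

lemma mem_W {D : ℕ} {q : P ℓ n} (h : G1 D q) : q ∈ W ℓ n D :=
  Submodule.subset_span (Or.inl h)

lemma mem_WL {D : ℕ} {q : P ℓ n} (h : G1 D q) (r : Fin ℓ) : L r * q ∈ W ℓ n D :=
  Submodule.subset_span (Or.inr ⟨r, q, h, rfl⟩)

lemma pderiv_Lmul (a : Fin ℓ × Fin n) (r : Fin ℓ) (q : P ℓ n) :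
    pderiv a (L r * q) = (if a.1 = r then 1 else 0) * q + L r * pderiv a q := by
  rw [pderiv_mul, pderiv_L]

lemma iter_Lmul (a : Fin ℓ × Fin n) (r : Fin ℓ) (q : P ℓ n) (p : ℕ) :
    (pderiv a)^[p + 1] (L r * q) = L r * (pderiv a)^[p + 1] q
      + ((p + 1 : ℕ) : P ℓ n) * ((if a.1 = r then 1 else 0) * (pderiv a)^[p] q) := by
  induction p with
  | zero =>
    simp only [Function.iterate_succ_apply', Function.iterate_zero, id_eq]
    rw [pderiv_Lmul]
    push_cast
    ring
  | succ p ih =>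
    rw [Function.iterate_succ_apply', ih, map_add, pderiv_Lmul, pderiv_mul]
    have h1 : pderiv a ((p + 1 : ℕ) : P ℓ n) = 0 := by
      exact_mod_cast Derivation.map_natCast _ _
    have h2 : pderiv a ((if a.1 = r then 1 else 0) * (pderiv a)^[p] q) =
        (if a.1 = r then 1 else 0) * (pderiv a)^[p + 1] q := by
      rw [Function.iterate_succ_apply']
      split_ifs <;> simp
    rw [h1, h2, Function.iterate_succ_apply' _ (p + 1) q]
    push_cast
    ring

lemma E_Lmul (p : ℕ) (i k r : Fin ℓ) (q : P ℓ n) :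
    E (p + 1) i k (L r * q) = L r * E (p + 1) i k q
      + ((p + 1 : ℕ) : P ℓ n) * ((if k = r then 1 else 0) * E p i k q) := by
  unfold E
  rw [mul_sum, mul_sum, mul_sum, ← sum_add_distrib]
  refine sum_congr rfl fun j _ => ?_
  rw [iter_Lmul]
  ring

lemma E_zero (i k : Fin ℓ) (q : P ℓ n) : E 0 i k q = L i * q := by
  unfold E L
  rw [sum_mul]
  rfl

lemma E_add (p : ℕ) (i k : Fin ℓ) (f g : P ℓ n) : E p i k (f + g) = E p i k f + E p i k g := by
  unfold E
  rw [← sum_add_distrib]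
  refine sum_congr rfl fun j _ => ?_
  rw [iterate_map_add, mul_add]

lemma iter_smul (a : Fin ℓ × Fin n) (c : ℂ) (p : ℕ) (f : P ℓ n) :
    (pderiv a)^[p] (c • f) = c • (pderiv a)^[p] f := by
  induction p with
  | zero => rfl
  | succ p ih =>
    rw [Function.iterate_succ_apply', Function.iterate_succ_apply', ih, Derivation.map_smul]

lemma E_smul (p : ℕ) (i k : Fin ℓ) (c : ℂ) (f : P ℓ n) : E p i k (c • f) = c • E p i k f := by
  unfold E
  rw [smul_sum]
  refine sum_congr rfl fun j _ => ?_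
  rw [iter_smul, mul_smul_comm]

lemma E_zero_arg (p : ℕ) (i k : Fin ℓ) : E p i k (0 : P ℓ n) = 0 := by
  have := E_smul p i k 0 (0 : P ℓ n)
  simpa using this

lemma W_pderiv {D : ℕ} (a : Fin ℓ × Fin n) {g : P ℓ n} (hg : g ∈ W ℓ n D) :
    pderiv a g ∈ W ℓ n D := by
  rcases a with ⟨i, j⟩
  induction hg using Submodule.span_induction with
  | mem x hx =>
    rcases hx with hx | ⟨r, q, hq, rfl⟩
    · exact mem_W (G1_iter hx i j)
    · rw [pderiv_Lmul]
      refine Submodule.add_mem _ ?_ (mem_WL (G1_iter hq i j) r)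
      split_ifs
      · rw [one_mul]; exact mem_W hq
      · rw [zero_mul]; exact Submodule.zero_mem _
  | zero => rw [map_zero]; exact Submodule.zero_mem _
  | add x y _ _ hx hy => rw [map_add]; exact Submodule.add_mem _ hx hy
  | smul c x _ hx => rw [Derivation.map_smul]; exact Submodule.smul_mem _ c hx

lemma natCast_mul_mem {D : ℕ} (c : ℕ) {g : P ℓ n} (hg : g ∈ W ℓ n D) :
    (c : P ℓ n) * g ∈ W ℓ n D := by
  rw [← nsmul_eq_mul]
  exact Submodule.smul_of_tower_mem _ c hg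

lemma W_E {D : ℕ} {p : ℕ} (hp : 1 ≤ p) (i k : Fin ℓ) {g : P ℓ n} (hg : g ∈ W ℓ n D) :
    E p i k g ∈ W ℓ n D := by
  obtain ⟨p, rfl⟩ : ∃ p', p = p' + 1 := ⟨p - 1, by omega⟩
  induction hg using Submodule.span_induction with
  | mem x hx =>
    rcases hx with hx | ⟨r, q, hq, rfl⟩
    · exact mem_W (G1_E hx hp i k)
    · rw [E_Lmul]
      refine Submodule.add_mem _ (mem_WL (G1_E hq hp i k) r) (natCast_mul_mem _ ?_)
      split_ifs
      · rw [one_mul]
        rcases Nat.eq_zero_or_pos p with rfl | hp'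
        · rw [E_zero]; exact mem_WL hq i
        · exact mem_W (G1_E hq hp' i k)
      · rw [zero_mul]; exact Submodule.zero_mem _
  | zero => rw [E_zero_arg]; exact Submodule.zero_mem _
  | add x y _ _ hx hy => rw [E_add]; exact Submodule.add_mem _ hx hy
  | smul c x _ hx => rw [E_smul]; exact Submodule.smul_mem _ c hx

lemma W_sAct {D : ℕ} (σ : Equiv.Perm (Fin n)) {g : P ℓ n} (hg : g ∈ W ℓ n D) :
    sAct σ g ∈ W ℓ n D := by
  induction hg using Submodule.span_induction with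
  | mem x hx =>
    rcases hx with hx | ⟨r, q, hq, rfl⟩
    · exact mem_W (G1_sAct hx σ)
    · rw [map_mul, sAct_L]
      exact mem_WL (G1_sAct hq σ) r
  | zero => rw [map_zero]; exact Submodule.zero_mem _
  | add x y _ _ hx hy => rw [map_add]; exact Submodule.add_mem _ hx hy
  | smul c x _ hx => rw [map_smul]; exact Submodule.smul_mem _ c hx

lemma polMod_le_W {D : ℕ} {f : P ℓ n} (hf : f ∈ W ℓ n D) : polMod f ≤ W ℓ n D :=
  polMod_le ⟨fun σ => W_sAct σ hf, fun a _ hg => W_pderiv a hg,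
    fun _ hp i k _ hg => W_E hp i k hg⟩

/-! ### The antisymmetrizer -/

/-- The transposition `(2i, 2i+1)`. -/
def tau (n i : ℕ) : Equiv.Perm (Fin n) :=
  if h : 2 * i + 1 < n then Equiv.swap ⟨2 * i, by omega⟩ ⟨2 * i + 1, h⟩ else 1

lemma tau_val (i : ℕ) (c : Fin n) (h : 2 * i + 1 < n) : ((tau n i c : Fin n) : ℕ) =
    if (c : ℕ) = 2 * i then 2 * i + 1 else if (c : ℕ) = 2 * i + 1 then 2 * i else c := by
  unfold tau
  rw [dif_pos h, Equiv.swap_apply_def]
  simp only [Fin.ext_iff]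
  split_ifs <;> rfl

lemma tau_comm (i j : ℕ) : tau n i * tau n j = tau n j * tau n i := by
  by_cases hi : 2 * i + 1 < n
  · by_cases hj : 2 * j + 1 < n
    · ext c
      simp only [Equiv.Perm.mul_apply, tau_val i _ hi, tau_val j _ hj]
      split_ifs <;> omega
    · simp [tau, hj]
  · simp [tau, hi]

/-- `Pn j = ∏_{i < j} (1 - (2i, 2i+1))`. -/
noncomputable def Pn : ℕ → P ℓ n → P ℓ n
  | 0, v => v
  | j + 1, v => Pn j v - sAct (tau n j) (Pn j v)

lemma Pn_add (j : ℕ) (u v : P ℓ n) : Pn j (u + v) = Pn j u + Pn j v := by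
  induction j with
  | zero => rfl
  | succ j ih => simp only [Pn, ih, map_add]; ring

lemma Pn_smul (j : ℕ) (c : ℂ) (u : P ℓ n) : Pn j (c • u) = c • Pn j u := by
  induction j with
  | zero => rfl
  | succ j ih => simp only [Pn, ih, map_smul, smul_sub]

lemma Pn_zero (j : ℕ) : Pn j (0 : P ℓ n) = 0 := by
  simpa using Pn_smul j 0 (0 : P ℓ n)

lemma Pn_sum {ι : Type*} (s : Finset ι) (j : ℕ) (f : ι → P ℓ n) :
    Pn j (∑ i ∈ s, f i) = ∑ i ∈ s, Pn j (f i) := by
  classical
  induction s using Finset.induction_on with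
  | empty => simp [Pn_zero]
  | insert a s ha ih => rw [sum_insert ha, sum_insert ha, Pn_add, ih]

lemma Pn_Lmul (j : ℕ) (r : Fin ℓ) (u : P ℓ n) : Pn j (L r * u) = L r * Pn j u := by
  induction j with
  | zero => rfl
  | succ j ih => simp only [Pn, ih, map_mul, sAct_L]; ring

lemma Pn_tau (i j : ℕ) (u : P ℓ n) : sAct (tau n i) (Pn j u) = Pn j (sAct (tau n i) u) := by
  induction j with
  | zero => rfl
  | succ j ih => simp only [Pn, map_sub, ← ih, sAct_mul, tau_comm i j]

lemma Pn_kill {i j : ℕ} (hij : i < j) {u : P ℓ n} (hu : sAct (tau n i) u = u) : Pn j u = 0 := by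
  induction j with
  | zero => omega
  | succ j ih =>
    rcases Nat.lt_succ_iff_lt_or_eq.1 hij with h | rfl
    · simp only [Pn, ih h, map_zero, sub_zero]
    · simp only [Pn, Pn_tau, hu, sub_self]


lemma exists_pair_untouched {k : ℕ} (s : (Fin ℓ × Fin n) →₀ ℕ)
    (hs : s.degree < k) :
    ∃ i, i < k ∧ ∀ a ∈ s.support, (a.2 : ℕ) ≠ 2 * i ∧ (a.2 : ℕ) ≠ 2 * i + 1 := by
  classical
  by_contra hcon
  push Not at hcon
  have h1 : ∀ i : Fin k, ∃ a ∈ s.support, (a.2 : ℕ) / 2 = i := by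
    intro i
    obtain ⟨a, ha, h⟩ := hcon i i.2
    refine ⟨a, ha, ?_⟩
    by_cases h2 : (a.2 : ℕ) = 2 * i
    · omega
    · have := h h2
      omega
  choose e he1 he2 using h1
  have hinj : Function.Injective e := by
    intro i j hij
    apply Fin.ext
    rw [← he2 i, ← he2 j, hij]
  have hcard : k ≤ s.support.card := by
    have h2 : (univ.image e).card = k := by
      rw [card_image_of_injective _ hinj, card_univ, Fintype.card_fin]
    rw [← h2]
    exact card_le_card (by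
      intro a ha
      obtain ⟨i, _, rfl⟩ := mem_image.1 ha
      exact he1 i)
  have h3 : s.support.card ≤ s.degree := by
    rw [Finsupp.degree_apply, card_eq_sum_ones]
    exact sum_le_sum fun a ha => Nat.one_le_iff_ne_zero.2 (Finsupp.mem_support_iff.1 ha)
  omega

lemma Pn_G1 {k D : ℕ} (hk : 2 * k ≤ n) (hD : D < 2 * k) {q : P ℓ n} (h : G1 D q) :
    Pn k q = 0 := by
  classical
  obtain ⟨T, m, h1, h2, h3⟩ := h
  by_cases hT : ∃ i, i < k ∧ ∀ c ∈ T, (c : ℕ) ≠ 2 * i ∧ (c : ℕ) ≠ 2 * i + 1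
  · obtain ⟨i, hi, hc⟩ := hT
    refine Pn_kill hi (h3 _ fun j hj => ?_)
    have hn : 2 * i + 1 < n := by omega
    apply Fin.ext
    rw [tau_val i j hn, if_neg (hc j hj).1, if_neg (hc j hj).2]
  · push Not at hT
    have hTk : k ≤ T.card := by
      have h4 : ∀ i : Fin k, ∃ c ∈ T, (c : ℕ) / 2 = i := by
        intro i
        obtain ⟨c, hc, h⟩ := hT i i.2
        refine ⟨c, hc, ?_⟩
        by_cases h2 : (c : ℕ) = 2 * i
        · omega
        · have := h h2
          omega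
      choose e he1 he2 using h4
      have hinj : Function.Injective e := by
        intro i j hij
        apply Fin.ext
        rw [← he2 i, ← he2 j, hij]
      have h5 : (univ.image e).card = k := by
        rw [card_image_of_injective _ hinj, card_univ, Fintype.card_fin]
      rw [← h5]
      exact card_le_card (by
        intro a ha
        obtain ⟨i, _, rfl⟩ := mem_image.1 ha
        exact he1 i)
    have hm : m < k := by omega
    rw [q.as_sum, Pn_sum]
    refine sum_eq_zero fun s hs => ?_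
    have hdeg : s.degree = m := by
      by_contra hne
      exact (mem_support_iff.1 hs) (h2.coeff_eq_zero hne)
    obtain ⟨i, hi, hc⟩ := exists_pair_untouched (k := k) s (by omega)
    refine Pn_kill hi ?_
    have hn : 2 * i + 1 < n := by omega
    unfold sAct
    rw [rename_monomial]
    congr 1
    have : Finsupp.mapDomain (fun a : Fin ℓ × Fin n => (a.1, tau n i a.2)) s
        = Finsupp.mapDomain id s := by
      apply Finsupp.mapDomain_congr
      intro a ha
      rcases a with ⟨r, c⟩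
      simp only [id_eq, Prod.mk.injEq, true_and]
      apply Fin.ext
      rw [tau_val i c hn, if_neg (hc _ ha).1, if_neg (hc _ ha).2]
    rw [this, Finsupp.mapDomain_id]

lemma Pn_W {k D : ℕ} (hk : 2 * k ≤ n) (hD : D < 2 * k) {g : P ℓ n} (hg : g ∈ W ℓ n D) :
    Pn k g = 0 := by
  induction hg using Submodule.span_induction with
  | mem x hx =>
    rcases hx with hx | ⟨r, q, hq, rfl⟩
    · exact Pn_G1 hk hD hx
    · rw [Pn_Lmul, Pn_G1 hk hD hq, mul_zero]
  | zero => exact Pn_zero k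
  | add x y _ _ hx hy => rw [Pn_add, hx, hy, add_zero]
  | smul c x _ hx => rw [Pn_smul, hx, smul_zero]

/-! ### The symmetric function identity `m_{(2,1^{d-2})} = e_1 e_{d-1} - d e_d` -/

lemma m21_eq (n e : ℕ) : m21 n (e + 2) =
    (∑ j : Fin n, X j) * esymm (Fin n) ℂ (e + 1) - ((e + 2 : ℕ) : MvPolynomial (Fin n) ℂ) *
      esymm (Fin n) ℂ (e + 2) := by
  classical
  have split : ∀ (m : ℕ) (j : Fin n) (F : Finset (Fin n) → MvPolynomial (Fin n) ℂ),
      ∑ C ∈ powersetCard (m + 1) (univ : Finset (Fin n)), F C =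
        ∑ C ∈ powersetCard (m + 1) (univ.erase j), F C +
          ∑ B ∈ powersetCard m (univ.erase j), F (insert j B) := by
    intro m j F
    have h1 : (univ : Finset (Fin n)) = insert j (univ.erase j) := (insert_erase (mem_univ j)).symm
    conv_lhs => rw [h1, powersetCard_succ_insert (notMem_erase j univ)]
    rw [sum_union, sum_image]
    · intro A hA B hB hAB
      have hA' : j ∉ A := fun h => notMem_erase j univ ((mem_powersetCard.1 hA).1 h)
      have hB' : j ∉ B := fun h => notMem_erase j univ ((mem_powersetCard.1 hB).1 h)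
      rw [← erase_insert hA', ← erase_insert hB', hAB]
    · rw [disjoint_left]
      intro A hA hB
      obtain ⟨B, hB', rfl⟩ := mem_image.1 hB
      exact notMem_erase j univ ((mem_powersetCard.1 hA).1 (mem_insert_self j B))
  have hmain : ∀ j : Fin n, (X j : MvPolynomial (Fin n) ℂ) * esymm (Fin n) ℂ (e + 1) =
      ∑ C ∈ powersetCard (e + 1) (univ.erase j), X j * ∏ b ∈ C, X b +
        ∑ B ∈ powersetCard e (univ.erase j), X j ^ 2 * ∏ b ∈ B, X b := by
    intro j
    unfold esymm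
    rw [mul_sum, split e j]
    congr 1
    refine sum_congr rfl fun B hB => ?_
    have hB' : j ∉ B := fun h => notMem_erase j univ ((mem_powersetCard.1 hB).1 h)
    rw [prod_insert hB']
    ring
  have hcount : ((e + 2 : ℕ) : MvPolynomial (Fin n) ℂ) * esymm (Fin n) ℂ (e + 2) =
      ∑ j : Fin n, ∑ C ∈ powersetCard (e + 1) (univ.erase j), X j * ∏ b ∈ C, X b := by
    have h1 : ((e + 2 : ℕ) : MvPolynomial (Fin n) ℂ) * esymm (Fin n) ℂ (e + 2) =
        ∑ D ∈ powersetCard (e + 2) (univ : Finset (Fin n)),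
          ∑ j : Fin n, if j ∈ D then ∏ b ∈ D, (X b : MvPolynomial (Fin n) ℂ) else 0 := by
      unfold esymm
      rw [mul_sum]
      refine sum_congr rfl fun D hD => ?_
      rw [← sum_filter, filter_mem_eq_inter, univ_inter, sum_const, (mem_powersetCard.1 hD).2,
        nsmul_eq_mul]
    rw [h1, sum_comm]
    refine sum_congr rfl fun j _ => ?_
    rw [split (e + 1) j]
    have h2 : ∑ C ∈ powersetCard (e + 1 + 1) (univ.erase j),
        (if j ∈ C then ∏ b ∈ C, (X b : MvPolynomial (Fin n) ℂ) else 0) = 0 := by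
      refine sum_eq_zero fun C hC => if_neg fun h => ?_
      exact notMem_erase j univ ((mem_powersetCard.1 hC).1 h)
    rw [h2, zero_add]
    refine sum_congr rfl fun B hB => ?_
    have hB' : j ∉ B := fun h => notMem_erase j univ ((mem_powersetCard.1 hB).1 h)
    rw [if_pos (mem_insert_self j B), prod_insert hB']
  rw [hcount, sum_mul, sum_congr rfl fun j _ => hmain j, sum_add_distrib]
  unfold m21
  simp


/-! ### The element `∂_0 ∂_2 ⋯ ∂_{2k-2} m_{(2,1^{d-2})}` is not killed -/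

section nonvanishing

variable [NeZero ℓ]

/-- The elementary symmetric polynomial of degree `m` in the first-row variables with column
in `U`. -/
noncomputable def es (U : Finset (Fin n)) (m : ℕ) : P ℓ n :=
  ∑ B ∈ powersetCard m U, ∏ b ∈ B, X ((0 : Fin ℓ), b)

lemma row_esymm (m : ℕ) : row ℓ (esymm (Fin n) ℂ m) = es univ m := by
  unfold row esymm es
  simp [map_sum, map_prod]

lemma pderiv_prod_zero (a : Fin n) (B : Finset (Fin n)) (h : a ∉ B) :
    pderiv ((0 : Fin ℓ), a) (∏ b ∈ B, (X ((0 : Fin ℓ), b) : P ℓ n)) = 0 := by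
  classical
  induction B using Finset.induction_on with
  | empty => simp
  | insert c B hc ih =>
    rw [prod_insert hc, pderiv_mul, ih (fun h' => h (mem_insert_of_mem h')), mul_zero, add_zero,
      pderiv_X_of_ne, zero_mul]
    intro h'
    simp only [Prod.mk.injEq, true_and] at h'
    exact h (h' ▸ mem_insert_self c B)

lemma pderiv_es (a : Fin n) (U : Finset (Fin n)) (m : ℕ) (ha : a ∈ U) :
    pderiv ((0 : Fin ℓ), a) (es U (m + 1) : P ℓ n) = es (U.erase a) m := by
  classical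
  unfold es
  conv_lhs => rw [← insert_erase ha, powersetCard_succ_insert (notMem_erase a U)]
  rw [sum_union, sum_image, map_add, map_sum, map_sum]
  · rw [sum_eq_zero, zero_add]
    · refine sum_congr rfl fun B hB => ?_
      have hB' : a ∉ B := fun h => notMem_erase a U ((mem_powersetCard.1 hB).1 h)
      rw [prod_insert hB', pderiv_mul, pderiv_X_self, one_mul, pderiv_prod_zero a B hB', mul_zero,
        add_zero]
    · intro B hB
      exact pderiv_prod_zero a B fun h => notMem_erase a U ((mem_powersetCard.1 hB).1 h)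
  · intro A hA B hB hAB
    have hA' : a ∉ A := fun h => notMem_erase a U ((mem_powersetCard.1 hA).1 h)
    have hB' : a ∉ B := fun h => notMem_erase a U ((mem_powersetCard.1 hB).1 h)
    rw [← erase_insert hA', ← erase_insert hB', hAB]
  · rw [disjoint_left]
    intro A hA hB
    obtain ⟨B, hB', rfl⟩ := mem_image.1 hB
    exact notMem_erase a U ((mem_powersetCard.1 hA).1 (mem_insert_self a B))

/-- `∂_0 ∂_2 ⋯ ∂_{2(j-1)}` in the first row. -/
noncomputable def vd : ℕ → P ℓ n → P ℓ n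
  | 0, f => f
  | j + 1, f => if h : 2 * j < n then pderiv ((0 : Fin ℓ), ⟨2 * j, h⟩) (vd j f) else vd j f

lemma vd_mem {W' : Submodule ℂ (P ℓ n)} (hW : ∀ a, ∀ g ∈ W', pderiv a g ∈ W') {f : P ℓ n}
    (hf : f ∈ W') (j : ℕ) : vd j f ∈ W' := by
  induction j with
  | zero => exact hf
  | succ j ih =>
    unfold vd
    split_ifs
    · exact hW _ _ ih
    · exact ih

lemma vd_sub (j : ℕ) (f g : P ℓ n) : vd j (f - g) = vd j f - vd j g := by
  induction j with
  | zero => rfl
  | succ j ih =>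
    unfold vd
    split_ifs
    · rw [ih, map_sub]
    · exact ih

lemma vd_smul (j : ℕ) (c : ℂ) (f : P ℓ n) : vd j (c • f) = c • vd j f := by
  induction j with
  | zero => rfl
  | succ j ih =>
    unfold vd
    split_ifs
    · rw [ih, Derivation.map_smul]
    · exact ih

/-- The columns that are not among `0, 2, …, 2(j-1)`. -/
def U (n j : ℕ) : Finset (Fin n) := univ.filter (fun c => ¬ ((c : ℕ) % 2 = 0 ∧ (c : ℕ) < 2 * j))

lemma vd_es {k : ℕ} (hk : 2 * k ≤ n) (j : ℕ) (hj : j ≤ k) :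
    vd j (es univ (2 * k) : P ℓ n) = es (U n j) (2 * k - j) := by
  induction j with
  | zero =>
    have : U n 0 = univ := by
      ext c; simp [U]
    rw [this]
    rfl
  | succ j ih =>
    have hn : 2 * j < n := by omega
    have h1 : 2 * k - j = (2 * k - (j + 1)) + 1 := by omega
    unfold vd
    rw [dif_pos hn, ih (by omega), h1, pderiv_es]
    · congr 1
      ext c
      simp only [U, mem_erase, mem_filter, mem_univ, true_and, ne_eq, Fin.ext_iff]
      omega
    · simp [U]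

/-- The `0/1`-point supported on the columns `2i` (`i ∈ C`) and `2i+1` (`i ∉ C`), `i < k`, of
the first row. -/
noncomputable def y (ℓ n k : ℕ) [NeZero ℓ] (C : Finset ℕ) : Fin ℓ × Fin n → ℂ := fun a =>
  if a.1 = 0 ∧ (a.2 : ℕ) < 2 * k ∧ (a.2 : ℕ) % 2 = (if (a.2 : ℕ) / 2 ∈ C then 0 else 1)
  then 1 else 0

lemma eval_tau {k j : ℕ} (hk : 2 * k ≤ n) (hj : j < k) (C : Finset ℕ) (hC : j ∉ C) (u : P ℓ n) :
    eval (y ℓ n k C) (sAct (tau n j) u) = eval (y ℓ n k (insert j C)) u := by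
  unfold sAct
  rw [eval_rename]
  congr 2
  funext a
  rcases a with ⟨r, c⟩
  have hn : 2 * j + 1 < n := by omega
  simp only [y, Function.comp_apply, tau_val j c hn]
  by_cases h1 : (c : ℕ) = 2 * j
  · have h2 : (2 * j + 1) / 2 = j := by omega
    have h3 : (2 * j) / 2 = j := by omega
    have h4 : (2 * j + 1) % 2 = 1 := by omega
    have h5 : (2 * j) % 2 = 0 := by omega
    have h6 : 2 * j + 1 < 2 * k := by omega
    have h7 : 2 * j < 2 * k := by omega
    simp [h1, h2, h3, h4, h5, h6, h7, hC]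
  · by_cases h1' : (c : ℕ) = 2 * j + 1
    · have h2 : (2 * j + 1) / 2 = j := by omega
      have h3 : (2 * j) / 2 = j := by omega
      have h4 : (2 * j + 1) % 2 = 1 := by omega
      have h5 : (2 * j) % 2 = 0 := by omega
      simp [h1', h2, h3, h4, h5, hC]
    · have h2 : (c : ℕ) / 2 ≠ j := by omega
      simp [h1, h1', h2]

lemma y_ne_zero {k : ℕ} {C : Finset ℕ} {b : Fin n} (hb : b ∈ U n k)
    (h : y ℓ n k C (0, b) ≠ 0) : (b : ℕ) < 2 * k ∧ (b : ℕ) % 2 = 1 ∧ (b : ℕ) / 2 ∉ C := by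
  simp only [y, true_and, ne_eq, ite_eq_right_iff, one_ne_zero, imp_false, not_not] at h
  simp only [U, mem_filter, mem_univ, true_and, not_and, not_lt] at hb
  obtain ⟨h1, h2⟩ := h
  have h3 : (b : ℕ) % 2 ≠ 0 := fun h0 => by have := hb h0; omega
  have h4 : (b : ℕ) / 2 ∉ C := fun h5 => by
    rw [if_pos h5] at h2
    exact h3 h2
  exact ⟨h1, by omega, h4⟩

lemma eval_es (k : ℕ) (C : Finset ℕ) :
    eval (y ℓ n k C) (es (U n k) k : P ℓ n) =
      ∑ B ∈ powersetCard k (U n k), ∏ b ∈ B, y ℓ n k C (0, b) := by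
  unfold es
  simp [map_sum, map_prod]

lemma card_le_of_half {k : ℕ} (B : Finset (Fin n)) (S : Finset ℕ) (hS : S ⊆ range k)
    (h : ∀ b ∈ B, (b : ℕ) < 2 * k ∧ (b : ℕ) % 2 = 1 ∧ (b : ℕ) / 2 ∉ S) :
    B.card + S.card ≤ k := by
  classical
  have h1 : (B.image (fun b : Fin n => (b : ℕ) / 2)).card = B.card := by
    apply card_image_of_injOn
    intro a ha b hb hab
    have h2 := h a ha
    have h3 := h b hb
    simp only at hab
    apply Fin.ext
    omega
  have h4 : B.image (fun b : Fin n => (b : ℕ) / 2) ⊆ range k \ S := by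
    intro x hx
    obtain ⟨b, hb, rfl⟩ := mem_image.1 hx
    have := h b hb
    rw [mem_sdiff, mem_range]
    exact ⟨by omega, this.2.2⟩
  have h5 := card_le_card h4
  rw [card_sdiff_of_subset hS, card_range, h1] at h5
  have h6 := card_le_card hS
  rw [card_range] at h6
  omega

lemma eval_es_nonempty {k : ℕ} (C : Finset ℕ) (hC : C.Nonempty) (hCk : C ⊆ range k) :
    eval (y ℓ n k C) (es (U n k) k : P ℓ n) = 0 := by
  rw [eval_es]
  refine sum_eq_zero fun B hB => ?_
  rw [mem_powersetCard] at hB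
  by_contra hne
  have hne' := prod_ne_zero_iff.1 hne
  have := card_le_of_half B C hCk (fun b hb => y_ne_zero (hB.1 hb) (hne' b hb))
  have h1 := hC.card_pos
  omega

lemma eval_es_empty {k : ℕ} (hk : 2 * k ≤ n) :
    eval (y ℓ n k ∅) (es (U n k) k : P ℓ n) = 1 := by
  classical
  rw [eval_es]
  set e : Fin k ↪ Fin n := ⟨fun i => ⟨2 * i + 1, by omega⟩, by
    intro a b hab
    simp only [Fin.mk.injEq] at hab
    exact Fin.ext (by omega)⟩ with he
  have he' : ∀ i : Fin k, ((e i : Fin n) : ℕ) = 2 * i + 1 := fun i => rfl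
  set B0 : Finset (Fin n) := univ.map e with hB0
  have hcard : B0.card = k := by simp [hB0]
  have hmem : B0 ∈ powersetCard k (U n k) := by
    rw [mem_powersetCard]
    refine ⟨?_, hcard⟩
    intro b hb
    obtain ⟨i, _, rfl⟩ := mem_map.1 hb
    simp only [U, mem_filter, mem_univ, true_and, he']
    omega
  rw [sum_eq_single_of_mem B0 hmem]
  · refine prod_eq_one fun b hb => ?_
    obtain ⟨i, _, rfl⟩ := mem_map.1 hb
    simp only [y, he', notMem_empty, if_false, true_and]
    rw [if_pos]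
    have := i.2
    constructor <;> omega
  · intro B hB hne
    rw [mem_powersetCard] at hB
    by_contra hprod'
    have hprod := prod_ne_zero_iff.1 hprod'
    apply hne
    apply eq_of_subset_of_card_le
    · intro b hb
      obtain ⟨h1, h2, _⟩ := y_ne_zero (hB.1 hb) (hprod b hb)
      refine mem_map.2 ⟨⟨(b : ℕ) / 2, by omega⟩, mem_univ _, ?_⟩
      apply Fin.ext
      rw [he']
      simp only
      omega
    · rw [hcard, hB.2]

lemma eval_Pn_nonempty {k : ℕ} (hk : 2 * k ≤ n) (j : ℕ) : ∀ (C : Finset ℕ), C.Nonempty →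
    (∀ i ∈ C, j ≤ i ∧ i < k) → j ≤ k →
    eval (y ℓ n k C) (Pn j (es (U n k) k : P ℓ n)) = 0 := by
  induction j with
  | zero =>
    intro C hC hCk _
    exact eval_es_nonempty C hC (fun i hi => mem_range.2 (hCk i hi).2)
  | succ j ih =>
    intro C hC hCk hj
    have hjC : j ∉ C := fun h => by have := (hCk j h).1; omega
    unfold Pn
    rw [map_sub, eval_tau hk (by omega) C hjC, ih C hC (fun i hi => ⟨by have := (hCk i hi).1; omega,
      (hCk i hi).2⟩) (by omega), ih (insert j C) (insert_nonempty _ _) ?_ (by omega), sub_zero]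
    intro i hi
    rcases mem_insert.1 hi with rfl | hi
    · omega
    · have := hCk i hi
      omega

lemma eval_Pn_empty {k : ℕ} (hk : 2 * k ≤ n) (j : ℕ) (hj : j ≤ k) :
    eval (y ℓ n k ∅) (Pn j (es (U n k) k : P ℓ n)) = 1 := by
  induction j with
  | zero => exact eval_es_empty hk
  | succ j ih =>
    unfold Pn
    rw [map_sub, eval_tau hk (by omega) ∅ (notMem_empty _), ih (by omega),
      eval_Pn_nonempty hk j (insert j ∅) (insert_nonempty _ _) ?_ (by omega), sub_zero]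
    intro i hi
    rcases mem_insert.1 hi with rfl | hi
    · omega
    · exact absurd hi (notMem_empty _)

lemma row_m21 {e : ℕ} : row ℓ (m21 n (e + 2)) =
    L (0 : Fin ℓ) * es univ (e + 1) - ((e + 2 : ℕ) : ℂ) • (es univ (e + 2) : P ℓ n) := by
  rw [m21_eq, ← row_esymm, ← row_esymm]
  have h1 : (C ((e + 2 : ℕ) : ℂ) : P ℓ n) = ((e + 2 : ℕ) : P ℓ n) := map_natCast C _
  unfold row L
  rw [map_sub, map_mul, map_mul, map_natCast, map_sum, smul_eq_C_mul, h1]
  simp only [rename_X]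

lemma es_mem {m : ℕ} : G1 m (es univ m : P ℓ n) := by
  refine ⟨∅, m, by simp, ?_, fun σ _ => ?_⟩
  · unfold es
    refine IsHomogeneous.sum _ _ _ fun B hB => ?_
    have h := IsHomogeneous.prod B (fun b => (X ((0 : Fin ℓ), b) : P ℓ n)) (fun _ => 1)
      (fun b _ => isHomogeneous_X ℂ _)
    rwa [sum_const, (mem_powersetCard.1 hB).2, smul_eq_mul, mul_one] at h
  · rw [← row_esymm]
    unfold row sAct
    rw [rename_rename]
    conv_rhs => rw [← esymm_isSymmetric (Fin n) ℂ m σ, rename_rename]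
    rfl

lemma Pn_vd_ne {k : ℕ} (hk : 2 * k ≤ n) (hk1 : 1 ≤ k) :
    Pn k (vd k (row ℓ (m21 n (2 * k)))) ≠ 0 := by
  obtain ⟨e, he⟩ : ∃ e, 2 * k = e + 2 := ⟨2 * k - 2, by omega⟩
  have h1 : row ℓ (m21 n (2 * k)) =
      L (0 : Fin ℓ) * es univ (2 * k - 1) - ((2 * k : ℕ) : ℂ) • (es univ (2 * k) : P ℓ n) := by
    have : 2 * k - 1 = e + 1 := by omega
    rw [this, he]
    exact row_m21
  have h2 : vd k (L (0 : Fin ℓ) * es univ (2 * k - 1) : P ℓ n) ∈ W ℓ n (2 * k - 1) :=
    vd_mem (fun a g hg => W_pderiv a hg) (mem_WL es_mem 0) k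
  intro h0
  rw [h1, vd_sub, vd_smul, vd_es hk k le_rfl, sub_eq_add_neg, ← neg_smul, Pn_add, Pn_smul,
    Pn_W hk (by omega) h2, zero_add] at h0
  have h3 : 2 * k - k = k := by omega
  rw [h3] at h0
  have h4 := congrArg (eval (y ℓ n k ∅)) h0
  rw [smul_eval, eval_Pn_empty hk k le_rfl, mul_one, map_zero, neg_eq_zero] at h4
  have : (2 * k : ℕ) = 0 := by exact_mod_cast h4
  omega

/-- There is no injective `𝔖_n`-equivariant linear map `M_{m_{(2,1^{d-2})}} → M_{e_{d-1,1}}`
for even `d`. -/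
theorem no_embedding {k : ℕ} (hk : 2 * k ≤ n) (hk1 : 1 ≤ k) :
    ¬ ∃ φ : polMod (row ℓ (m21 n (2 * k))) →ₗ[ℂ]
        polMod (row ℓ (esymm (Fin n) ℂ (2 * k - 1) * esymm (Fin n) ℂ 1)),
      Function.Injective φ ∧ SEquivariant φ := by
  set f := row ℓ (m21 n (2 * k)) with hf
  set g := row ℓ (esymm (Fin n) ℂ (2 * k - 1) * esymm (Fin n) ℂ 1) with hg
  rintro ⟨φ, hinj, hφ⟩
  have hgW : g ∈ W ℓ n (2 * k - 1) := by
    have : g = L (0 : Fin ℓ) * es univ (2 * k - 1) := by
      rw [hg, ← row_esymm]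
      unfold row L
      rw [map_mul, mul_comm, esymm_one, map_sum]
      simp
    rw [this]
    exact mem_WL es_mem 0
  have hfmem : f ∈ polMod f := by
    have := (polMod_closed f).orbit 1
    have h1 : sAct 1 f = f := by
      rw [hf]
      unfold sAct row
      rw [rename_rename]
      rfl
    rwa [h1] at this
  have hv : vd k f ∈ polMod f := vd_mem (polMod_closed f).deriv hfmem k
  have hstep : ∀ j : ℕ, ∃ w : polMod f, (w : P ℓ n) = Pn j (vd k f) ∧
      (φ w : P ℓ n) = Pn j (φ ⟨vd k f, hv⟩) := by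
    intro j
    induction j with
    | zero => exact ⟨⟨vd k f, hv⟩, rfl, rfl⟩
    | succ j ih =>
      obtain ⟨w, hw1, hw2⟩ := ih
      refine ⟨w - ⟨sAct (tau n j) w, polMod_sAct f _ w.2⟩, ?_, ?_⟩
      · change (w : P ℓ n) - sAct (tau n j) (w : P ℓ n) = _
        rw [hw1]
        rfl
      · rw [map_sub, Submodule.coe_sub,
          hφ (tau n j) w ⟨sAct (tau n j) w, polMod_sAct f _ w.2⟩ rfl, hw2]
        rfl
  obtain ⟨w, hw1, hw2⟩ := hstep k
  have h3 : (φ w : P ℓ n) = 0 := by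
    rw [hw2]
    exact Pn_W hk (by omega) (polMod_le_W hgW (φ ⟨vd k f, hv⟩).2)
  have h4 : φ w = 0 := Subtype.ext h3
  have h5 : w = 0 := hinj (by rw [h4, map_zero])
  have h6 : Pn k (vd k f) = 0 := by rw [← hw1, h5]; rfl
  exact Pn_vd_ne hk hk1 h6

end nonvanishing

/-- **Q2 of MP_30ddb3_co is false.**  For every even `d ≥ 4`, every `n ≥ d` and every `ℓ ≥ 1`
there is not even an injective `𝔖_n`-equivariant linear map from `M_{m_{(2,1^{d-2})}}` to
`M_{e_{d-1,1}}`; in particular the statement of Q2 fails. -/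
theorem result :
    (∀ (ℓ n d : ℕ) [NeZero ℓ], Even d → 4 ≤ d → d ≤ n →
      ¬ ∃ φ : polMod (row ℓ (m21 n d)) →ₗ[ℂ]
          polMod (row ℓ (esymm (Fin n) ℂ (d - 1) * esymm (Fin n) ℂ 1)),
        Function.Injective φ ∧ SEquivariant φ) ∧
    ¬ (∀ (ℓ n d : ℕ) [NeZero ℓ], 5 ≤ d → d ≤ n →
      RepIso (polMod (row ℓ (m21 n d)))
        (polMod (row ℓ (esymm (Fin n) ℂ (d - 1) * esymm (Fin n) ℂ 1)))) := by
  have h1 : ∀ (ℓ n d : ℕ) [NeZero ℓ], Even d → 4 ≤ d → d ≤ n →
      ¬ ∃ φ : polMod (row ℓ (m21 n d)) →ₗ[ℂ]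
          polMod (row ℓ (esymm (Fin n) ℂ (d - 1) * esymm (Fin n) ℂ 1)),
        Function.Injective φ ∧ SEquivariant φ := by
    intro ℓ n d _ hd h4 hdn
    obtain ⟨k, rfl⟩ := hd.two_dvd
    exact no_embedding hdn (by omega)
  refine ⟨h1, fun h => ?_⟩
  obtain ⟨φ, hφ, _⟩ := h 1 6 6 (by norm_num) le_rfl
  exact h1 1 6 6 (by decide) (by norm_num) le_rfl ⟨φ, φ.injective, hφ⟩

end Pool.Agent.Results.MP_30ddb3_co.PolarizationNotIso
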